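import Pool.Agent.H44.MS.Targets

/-!
# Large least coordinates in representations by three squares: the statements of the modules
-/

set_option autoImplicit false

namespace Pool.Agent.H90.LC

open Finset Pool.Agent.H44.MS

/-! ## Definitions -/

/-- The primes `p ≡ 3 mod 4`, `p ≤ y` divide `m` to even powers. -/
def Ev (y m : ℕ) : Prop := ∀ p : ℕ, p.Prime → p % 4 = 3 → p ≤ y → Even (m.factorization p)

/-- All primes `p ≡ 3 mod 4` divide `m` to even powers. -/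
def SS (m : ℕ) : Prop := ∀ p : ℕ, p.Prime → p % 4 = 3 → Even (m.factorization p)

/-- The primes `p ≡ 3 mod 4`, `p ≤ y`. -/
def P3 (y : ℕ) : Finset ℕ := (Icc 1 y).filter (fun p => p.Prime ∧ p % 4 = 3)

/-- The survivors: the odd `x ≤ B` which are not excluded by the class `1 / 4`. -/
noncomputable def Sur (y B : ℕ) : Finset ℕ := by
  classical exact (Icc 1 B).filter (fun x => x % 2 = 1 ∧ Ev y ((2 * x - 1) * (2 * x + 1)))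

/-- The exponent of the prime `p` in the modulus: `4 B ^ 2 < p ^ kk B p`. -/
def kk (B p : ℕ) : ℕ := Nat.log p (4 * B ^ 2) + 1

/-- The modulus. -/
noncomputable def MM (y B : ℕ) (f : ℕ → ℕ) : ℕ :=
  8 * (∏ p ∈ P3 y, p ^ kk B p) * ∏ x ∈ Sur y B, f x ^ 2

/-- The conditions on `n`. -/
def Con (y B : ℕ) (f : ℕ → ℕ) (n : ℕ) : Prop :=
  n % 8 = 3 ∧ (∀ p ∈ P3 y, 4 * n ≡ 1 [MOD p ^ kk B p]) ∧
    ∀ x ∈ Sur y B, n ≡ x ^ 2 + f x [MOD f x ^ 2]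

/-- `f` attaches to the survivors different primes `3 mod 4` between `y` and `Y`. -/
def Att (y Y B : ℕ) (f : ℕ → ℕ) : Prop :=
  (∀ x ∈ Sur y B, (f x).Prime ∧ f x % 4 = 3 ∧ y < f x ∧ f x ≤ Y) ∧
    Set.InjOn f (Sur y B : Set ℕ)

/-- The number of primes `t ≤ X`, `y < t` such that the primes `3 mod 4` up to `y` divide
`t m - 2` to even powers. -/
noncomputable def TM (y X m : ℕ) : ℕ := by
  classical exact ((Icc 1 X).filter (fun t => t.Prime ∧ y < t ∧ Ev y (t * m - 2))).card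

/-- The number of the `t ≤ X` without prime factors up to `z` such that `b ^ 2` divides `t m - 2`
and the quotient has no prime factor `3 mod 4` up to `z`. -/
noncomputable def NB (z X m b : ℕ) : ℕ := by
  classical exact ((Icc 1 X).filter (fun t => z < t ∧ Rough z t ∧ b ^ 2 ∣ t * m - 2 ∧
    Good 0 z ((t * m - 2) / b ^ 2))).card

/-- The local factor. -/
noncomputable def hp (j : ℕ) : ℝ :=
  ∏ p ∈ j.primeFactors.filter (fun p => p % 4 = 3), (1 - 2 / (p : ℝ))⁻¹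

/-! ## The sieve -/

/-- RAN. Rankin's trick. -/
def T_RAN : Prop := ∃ u : ℕ, ∀ (z : ℕ) (P : Finset ℕ) (g : ℕ → ℝ), 2 ≤ z →
  (∀ p ∈ P, p.Prime ∧ p ≤ z ∧ 0 ≤ g p ∧ g p ≤ 6 / (p : ℝ)) →
  ∑ T ∈ P.powerset, ic (z ^ u < ∏ p ∈ T, p) * ∏ p ∈ T, g p ≤ (∏ p ∈ P, (1 + g p)) / 2

/-- SIV. The upper bound sieve with one or two classes for each prime. -/
def T_SIV : Prop := ∃ A : ℕ, ∀ (z U : ℕ) (P : Finset ℕ) (Ω : ℕ → Finset ℕ), 2 ≤ z →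
  (∀ p ∈ P, p.Prime ∧ p ≤ z ∧ Ω p ⊆ range p ∧ 1 ≤ (Ω p).card ∧ (Ω p).card ≤ 2 ∧
    (Ω p).card < p) →
  (((range U).filter (fun u => ∀ p ∈ P, u % p ∉ Ω p)).card : ℝ) ≤
    2 * U * ∏ p ∈ P, (1 - ((Ω p).card : ℝ) / p) + (z : ℝ) ^ A

/-- WZ. The product over the primes. -/
def T_WZ : Prop := ∃ C : ℝ, 0 < C ∧ ∀ z j : ℕ, 2 ≤ z → 0 < j →
  ∏ p ∈ (Icc 1 z).filter Nat.Prime,
      (if p % 4 = 3 then (if p ∣ j then 1 else 1 - 2 / (p : ℝ)) else 1 - 1 / (p : ℝ)) ≤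
    C * hp j / (Real.log z * √(Real.log z))

/-- TMB. The numbers `t` with a given square. -/
def T_TMB : Prop := ∃ C : ℝ, 0 < C ∧ ∃ A : ℕ, ∀ z X m b : ℕ, 2 ≤ z → 0 < m → 0 < b →
  (∀ p : ℕ, p.Prime → p ∣ b → p % 4 = 3) →
  (NB z X m b : ℝ) ≤
    C * ((X : ℝ) / (b : ℝ) ^ 2 + 1) * (hp b * hp m) / (Real.log z * √(Real.log z)) + (z : ℝ) ^ A

/-- HP. The local factor. -/
def T_HP : Prop :=
  (∀ j : ℕ, 0 < j → 1 ≤ hp j ∧ hp j ≤ 2 * √(j : ℝ)) ∧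
  (∀ m n : ℕ, 0 < m → 0 < n → hp (m * n) ≤ hp m * hp n) ∧
  (∀ m n : ℕ, 0 < m → 0 < n → (∀ p : ℕ, p.Prime → p ∣ m → p % 4 ≠ 3) →
    hp (m * n ^ 2) = hp n) ∧
  ∃ C : ℝ, 0 < C ∧ ∀ X : ℕ, ∑ b ∈ Icc 1 X, hp b / (b : ℝ) ^ 2 ≤ C

/-- SM. The sum over `m`. -/
def T_SM : Prop := ∃ C : ℝ, 0 < C ∧ ∀ X : ℕ, 2 ≤ X →
  ∑ m ∈ Icc 1 X, ic (SS m) * hp m / m ≤ C * √(Real.log X)

/-- TM. The number of the large primes for given `m`. -/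
def T_TM : Prop := ∃ C : ℝ, 0 < C ∧ ∃ y₀ : ℕ, ∀ y X m : ℕ, y₀ ≤ y → 0 < m → y ≤ X →
  (X * m) ^ 2 ≤ y ^ 3 →
  (TM y X m : ℝ) ≤ C * X * hp m / (Real.log y * √(Real.log y))

/-! ## The survivors -/

/-- INJ. The factorisation of `2 x + 1`. -/
def T_INJ : Prop := ∀ y K : ℕ, 2 ≤ K → 2 * K + 1 < y →
  ((Sur y (K * y)).card : ℝ) ≤
    ∑ m ∈ Icc 1 (2 * K + 1), ic (SS m) * TM y ((2 * (K * y) + 1) / m) m

/-- SUR. The number of the survivors. -/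
def T_SUR : Prop := ∃ C : ℝ, 0 < C ∧ ∃ y₀ : ℕ, ∀ y K : ℕ, y₀ ≤ y → 2 ≤ K → (K : ℝ) ≤ Real.log y →
  ((Sur y (K * y)).card : ℝ) ≤
    C * (K * y) * √(Real.log K) / (Real.log y * √(Real.log y))

/-- PR. The primes `3 mod 4`. -/
def T_PR : Prop := ∃ A : ℕ, 2 ≤ A ∧ ∃ c : ℝ, 0 < c ∧ ∃ y₀ : ℕ, ∀ y : ℕ, y₀ ≤ y →
  c * y / Real.log y ≤ (((Ioc y (A * y)).filter (fun p => p.Prime ∧ p % 4 = 3)).card : ℝ)

/-! ## The construction -/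

/-- SQF. Squarefree numbers in arithmetic progressions. -/
def T_SQF : Prop := ∃ C : ℕ, 0 < C ∧ ∀ M a : ℕ, 6 ∣ M → 0 < M →
  (∀ n : ℕ, n ≡ a [MOD M] → ∀ p : ℕ, p.Prime → p ∣ M → ¬ p ^ 2 ∣ n) →
  ∃ n : ℕ, M ≤ n ∧ n ≤ C * M ^ 2 ∧ n ≡ a [MOD M] ∧ Squarefree n

/-- CRT. The class exists. -/
def T_CRT : Prop := ∀ (y Y B : ℕ) (f : ℕ → ℕ), Att y Y B f →
  ∃ a : ℕ, ∀ n : ℕ, n ≡ a [MOD MM y B f] → Con y B f n

/-- SIZ. The size of the modulus. -/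
def T_SIZ : Prop := ∃ C : ℝ, 0 < C ∧ ∀ (y A B : ℕ) (f : ℕ → ℕ), 2 ≤ y → 1 ≤ A → 1 ≤ B →
  B ≤ y ^ 2 → Att y (A * y) B f →
  Real.log (MM y B f) ≤ C * A * y

/-- LOW. The modulus is large and divisible by six. -/
def T_LOW : Prop := ∀ (y Y B : ℕ) (f : ℕ → ℕ), 3 ≤ y → Att y Y B f →
  6 ∣ MM y B f ∧ 0 < MM y B f ∧ 4 * B ^ 2 < MM y B f

/-- NSQ. No square of a prime factor of the modulus divides `n`. -/
def T_NSQ : Prop := ∀ (y Y B : ℕ) (f : ℕ → ℕ) (n : ℕ), Att y Y B f → Con y B f n →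
  ∀ p : ℕ, p.Prime → p ∣ MM y B f → ¬ p ^ 2 ∣ n

/-- KIL. There is no representation with a small coordinate. -/
def T_KIL : Prop := ∀ (y Y B : ℕ) (f : ℕ → ℕ) (n : ℕ), Att y Y B f → Con y B f n →
  ∀ x₁ x₂ x₃ : ℤ, x₁ ^ 2 + x₂ ^ 2 + x₃ ^ 2 = n → (B : ℤ) < |x₃|

/-- FIN. The theorem. -/
def T_FIN : Prop := ∃ c : ℝ, 0 < c ∧ ∃ N₀ : ℕ, ∀ N : ℕ, N₀ ≤ N →
  ∃ n : ℕ, Real.log N ≤ n ∧ n ≤ N ∧ n % 8 = 3 ∧ Squarefree n ∧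
    ∀ x₁ x₂ x₃ : ℤ, x₁ ^ 2 + x₂ ^ 2 + x₃ ^ 2 = n →
      c * Real.log N * √(Real.log (Real.log N) / Real.log (Real.log (Real.log N))) < |(x₃ : ℝ)|

/-- COR. Infinitely many numbers. -/
def T_COR : Prop := ∃ c : ℝ, 0 < c ∧ ∀ N₀ : ℕ, ∃ n : ℕ, N₀ ≤ n ∧ n % 8 = 3 ∧ Squarefree n ∧
    ∀ x₁ x₂ x₃ : ℤ, x₁ ^ 2 + x₂ ^ 2 + x₃ ^ 2 = n →
      c * Real.log n * √(Real.log (Real.log n) / Real.log (Real.log (Real.log n))) < |(x₃ : ℝ)|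

end Pool.Agent.H90.LC
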